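import Mathlib
import Pool.Agent.KS6_5.Kcomp.Core2

/-!
# MP_775545_an: the compact operators are uncomplemented in a cofinal family of separable algebras

A countable set `G` of operators on `ℓ²` prevents the complementation of the compact operators in
every subspace of `B(ℓ²)` that contains them together with `G`, and in every normed space into which
such a subspace maps boundedly and isomorphically on the compact operators.

`B` is the C*-algebra of all bounded operators on `ℓ²`, and `IsCpt k` says that `k` is compact
(`Pool.Agent.KS6_5.Kcomp.Defs`).
-/

namespace Pool.Agent.Results.MP_775545_an.CofinalFailure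

open Pool.Agent.KS6_5.Kcomp

universe u

/-- The set of all compact operators on `ℓ²`. -/
def K : Set B := {k | IsCpt k}

/-- There is a countable set `G` of operators on `ℓ²` such that, for every linear subspace `A` of
`B(ℓ²)` containing `G` and all compact operators, and every bounded linear map `j` of `A` into a
normed space that is bounded below on the compact operators, the image of the compact operators is
not complemented.  Hence every separable set of operators is contained in a separable closed unital
star subalgebra `A` of `B(ℓ²)` containing the compact operators such that the compact operators are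
complemented in no linear subspace between `A` and `B(ℓ²)`, in particular not in `A`. -/
theorem result :
    (∃ G : Set B, G.Countable ∧ ∀ A : Submodule ℂ B, G ⊆ A → K ⊆ A →
      ∀ (X : Type u) [NormedAddCommGroup X] [NormedSpace ℂ X] (j : A →ₗ[ℂ] X),
        EmbedsOn A K j → ¬ ImageComplemented A K j) ∧
    (∀ S : Set B, TopologicalSpace.IsSeparable S → ∃ A : StarSubalgebra ℂ B,
      IsClosed (A : Set B) ∧ TopologicalSpace.IsSeparable (A : Set B) ∧ S ⊆ A ∧ K ⊆ A ∧
      ∀ V : Submodule ℂ B, (A : Set B) ⊆ V → ¬ ComplementedIn K V) := by
  obtain ⟨G, hG, h⟩ := exists_countable'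
  refine ⟨⟨G, hG, ?_⟩, ?_⟩
  · rintro A hGA hKA X _ _ j ⟨⟨D, hD⟩, c, hc, hj⟩ ⟨P, hP1, hP2⟩
    exact not_complemented' (h A hGA fun k hk => hKA hk) j c D hc hD hj P hP1 hP2
  · intro S hS
    obtain ⟨A, h1, h2, h3, h4⟩ := exists_alg' (S ∪ G) (hS.union hG.isSeparable)
    refine ⟨A, h1, h2, fun s hs => h3 (Or.inl hs), fun k hk => h4 k hk, ?_⟩
    rintro V hV ⟨P, D, hP1, hP2, hP3⟩
    refine h V (fun g hg => hV (h3 (Or.inr hg))) (fun k hk => hV (h4 k hk))
      (V.subtype ∘ₗ P) D hP1 hP2 ?_
    intro a ha
    show ((P a : V) : B) = a
    rw [hP3 a ha]

end Pool.Agent.Results.MP_775545_an.CofinalFailure
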